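import Mathlib
import Pool.Agent.N575.LDT.Model

/-!
# Decision trees for shortest paths: path comparisons, free tests and smooth tests

The directed graph has three layers of `n` vertices: there are edges from the first to the second,
from the second to the third and from the first to the third layer.
-/

set_option autoImplicit false

namespace Pool.Agent.N575.PCT

open Filter Topology
open Pool.Agent.N575.LDT (Edge Tri Wts pot Shallow pot_continuous shallow_residual tendsto_line)

variable {n : ℕ}

/-- the length of a path from the vertex `i` of the first layer to the vertex `k` of the third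
layer: the edge (`none`), whose length is `-w (2, i, k)`, or the path through the vertex `j` of the
second layer (`some j`) -/
def pathLen (w : Wts n) (i k : Fin n) : Option (Fin n) → ℝ
  | none => -w (2, i, k)
  | some j => w (0, i, j) + w (1, j, k)

/-- For generic potentials `x` the function `f` is differentiable at `pot x`, and it is not zero or
its derivative is not zero. -/
def Regular (f : Wts n → ℝ) : Prop :=
  ∀ᶠ x in residual (Fin 3 × Fin n → ℝ),
    DifferentiableAt ℝ f (pot x) ∧ (f (pot x) ≠ 0 ∨ fderiv ℝ f (pot x) ≠ 0)

/-- Decision trees with outputs in `β`. A node asks for the value of a shallow function of the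
weights (`free`), for the comparison of the lengths of two paths from `i` to `k` (`cmp`), or for the
sign of any regular function of the weights (`smooth`). The tree may be infinite, but each of its
branches is finite. -/
inductive Alg (n : ℕ) (β : Type) : Type
  | leaf (b : β) : Alg n β
  | free (f : Wts n → ℤ) (hf : Shallow f) (next : ℤ → Alg n β) : Alg n β
  | cmp (i k : Fin n) (o o' : Option (Fin n)) (next : SignType → Alg n β) : Alg n β
  | smooth (f : Wts n → ℝ) (hf : Regular f) (next : SignType → Alg n β) : Alg n β

/-- the output -/
noncomputable def Alg.run {β : Type} : Alg n β → Wts n → β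
  | .leaf b, _ => b
  | .free f _ next, w => (next (f w)).run w
  | .cmp i k o o' next, w => (next (SignType.sign (pathLen w i k o - pathLen w i k o'))).run w
  | .smooth f _ next, w => (next (SignType.sign (f w))).run w

/-- the number of the path comparisons which are made for the weights `w` -/
noncomputable def Alg.cmps {β : Type} : Alg n β → Wts n → ℕ
  | .leaf _, _ => 0
  | .free f _ next, w => (next (f w)).cmps w
  | .cmp i k o o' next, w =>
    (next (SignType.sign (pathLen w i k o - pathLen w i k o'))).cmps w + 1
  | .smooth f _ next, w => (next (SignType.sign (f w))).cmps w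

/-- the number of the tests of regular functions which are made for the weights `w` -/
noncomputable def Alg.tests {β : Type} : Alg n β → Wts n → ℕ
  | .leaf _, _ => 0
  | .free f _ next, w => (next (f w)).tests w
  | .cmp i k o o' next, w =>
    (next (SignType.sign (pathLen w i k o - pathLen w i k o'))).tests w
  | .smooth f _ next, w => (next (SignType.sign (f w))).tests w + 1

/-! ### the reduced tree near a potential -/

/-- trees of path comparisons and linear tests -/
inductive QTree (n : ℕ) : Type
  | leaf (b : Bool) : QTree n
  | cmp (i k : Fin n) (o o' : Option (Fin n)) (next : SignType → QTree n) : QTree n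
  | lin (L : Edge n → ℝ) (next : SignType → QTree n) : QTree n

/-- the triangles which take part in a path comparison -/
def parts (i k : Fin n) (o o' : Option (Fin n)) : List (Tri n) :=
  (o.toList ++ o'.toList).map fun j => (i, j, k)

theorem parts_length (i k : Fin n) (o o' : Option (Fin n)) : (parts i k o o').length ≤ 2 := by
  unfold parts
  rw [List.length_map, List.length_append]
  cases o <;> cases o' <;> simp

noncomputable def QTree.run : QTree n → Wts n → Bool
  | .leaf b, _ => b
  | .cmp i k o o' next, w => (next (SignType.sign (pathLen w i k o - pathLen w i k o'))).run w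
  | .lin L next, w => (next (SignType.sign (∑ e, L e * w e))).run w

/-- the triangles which take part in path comparisons -/
noncomputable def QTree.vis : QTree n → Wts n → List (Tri n)
  | .leaf _, _ => []
  | .cmp i k o o' next, w =>
    parts i k o o' ++ (next (SignType.sign (pathLen w i k o - pathLen w i k o'))).vis w
  | .lin L next, w => (next (SignType.sign (∑ e, L e * w e))).vis w

noncomputable def QTree.lins : QTree n → Wts n → ℕ
  | .leaf _, _ => 0
  | .cmp i k o o' next, w =>
    (next (SignType.sign (pathLen w i k o - pathLen w i k o'))).lins w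
  | .lin L next, w => (next (SignType.sign (∑ e, L e * w e))).lins w + 1

/-- no linear form which is tested vanishes -/
def QTree.Gen : QTree n → Wts n → Prop
  | .leaf _, _ => True
  | .cmp i k o o' next, w =>
    (next (SignType.sign (pathLen w i k o - pathLen w i k o'))).Gen w
  | .lin L next, w => ∑ e, L e * w e ≠ 0 ∧ (next (SignType.sign (∑ e, L e * w e))).Gen w

/-- no test of the zero form -/
def QTree.NZ : QTree n → Prop
  | .leaf _ => True
  | .cmp _ _ _ _ next => ∀ s, (next s).NZ
  | .lin L next => L ≠ 0 ∧ ∀ s, (next s).NZ

/-- the reduction near a potential -/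
noncomputable def red {β : Type} (φ : β → Bool) : Alg n β → (Fin 3 × Fin n → ℝ) → QTree n
  | .leaf b, _ => .leaf (φ b)
  | .free f _ next, x => red φ (next (f (pot x))) x
  | .cmp i k o o' next, x => .cmp i k o o' fun s => red φ (next s) x
  | .smooth f _ next, x =>
    open Classical in
    if f (pot x) = 0 then
      .lin (fun e => fderiv ℝ f (pot x) fun j => if e = j then 1 else 0)
        fun s => red φ (next s) x
    else red φ (next (SignType.sign (f (pot x)))) x

theorem pathLen_line (x : Fin 3 × Fin n → ℝ) (ε : ℝ) (u : Wts n) (i k : Fin n)
    (o : Option (Fin n)) :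
    pathLen (pot x + ε • u) i k o = x (0, i) - x (2, k) + ε * pathLen u i k o := by
  cases o with
  | none =>
    simp only [pathLen, pot, Pi.add_apply, Pi.smul_apply, smul_eq_mul]
    rw [if_neg (by decide), if_neg (by decide)]
    ring
  | some j =>
    simp only [pathLen, pot, Pi.add_apply, Pi.smul_apply, smul_eq_mul]
    rw [if_pos trivial, if_neg (by decide), if_pos trivial]
    ring

theorem sign_line {ε : ℝ} (hε : 0 < ε) (x : Fin 3 × Fin n → ℝ) (u : Wts n) (i k : Fin n)
    (o o' : Option (Fin n)) :
    SignType.sign (pathLen (pot x + ε • u) i k o - pathLen (pot x + ε • u) i k o') =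
      SignType.sign (pathLen u i k o - pathLen u i k o') := by
  rw [pathLen_line, pathLen_line]
  have : x (0, i) - x (2, k) + ε * pathLen u i k o - (x (0, i) - x (2, k) + ε * pathLen u i k o') =
      ε * (pathLen u i k o - pathLen u i k o') := by ring
  rw [this, sign_mul, sign_pos hε, one_mul]

/-- the sign of a differentiable function near a zero -/
theorem sign_diff {f : Wts n → ℝ} {p : Wts n} (hf : DifferentiableAt ℝ f p) (h0 : f p = 0)
    {u : Wts n} (hu : fderiv ℝ f p u ≠ 0) :
    ∀ᶠ ε in 𝓝[>] (0 : ℝ), SignType.sign (f (p + ε • u)) = SignType.sign (fderiv ℝ f p u) := by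
  have h1 : HasDerivAt (fun ε : ℝ => f (p + ε • u)) (fderiv ℝ f p u) 0 := by
    have h2 : HasDerivAt (fun ε : ℝ => p + ε • u) u 0 := by
      simpa using ((hasDerivAt_id (0 : ℝ)).smul_const u).const_add p
    have h3 : HasFDerivAt f (fderiv ℝ f p) (p + (0 : ℝ) • u) := by
      rw [zero_smul, add_zero]
      exact hf.hasFDerivAt
    exact h3.comp_hasDerivAt 0 h2
  have h2 := h1.tendsto_slope_zero_right
  simp only [zero_add, zero_smul, add_zero, h0, sub_zero, smul_eq_mul] at h2
  rcases lt_or_gt_of_ne hu with h | h
  · filter_upwards [h2.eventually (gt_mem_nhds h), self_mem_nhdsWithin] with ε h3 h4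
    have h4' : (0 : ℝ) < ε := h4
    have h5 : f (p + ε • u) < 0 := by
      by_contra hc
      push Not at hc
      exact absurd (mul_nonneg (inv_pos.2 h4').le hc) (not_le.2 h3)
    rw [sign_neg h5, sign_neg h]
  · filter_upwards [h2.eventually (lt_mem_nhds h), self_mem_nhdsWithin] with ε h3 h4
    have h4' : (0 : ℝ) < ε := h4
    have h5 : 0 < f (p + ε • u) := by
      by_contra hc
      push Not at hc
      exact absurd (mul_nonpos_of_nonneg_of_nonpos (inv_pos.2 h4').le hc) (not_le.2 h3)
    rw [sign_pos h5, sign_pos h]

theorem fderiv_sum (f : Wts n → ℝ) (p u : Wts n) :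
    ∑ e, (fderiv ℝ f p fun j => if e = j then 1 else 0) * u e = fderiv ℝ f p u := by
  have h := LinearMap.pi_apply_eq_sum_univ (fderiv ℝ f p).toLinearMap u
  simp only [ContinuousLinearMap.coe_coe, smul_eq_mul] at h
  rw [h]
  exact Finset.sum_congr rfl fun e _ => mul_comm _ _

/-- the reduced tree describes the tree near the potential -/
structure QGood {β : Type} (φ : β → Bool) (t : Alg n β) (x : Fin 3 × Fin n → ℝ) : Prop where
  nz : (red φ t x).NZ
  good : ∀ u : Wts n, (red φ t x).Gen u → ∀ᶠ ε in 𝓝[>] (0 : ℝ),
    φ (t.run (pot x + ε • u)) = (red φ t x).run u ∧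
      ((red φ t x).vis u).length ≤ 2 * t.cmps (pot x + ε • u) ∧
      (red φ t x).lins u ≤ t.tests (pot x + ε • u)

theorem qgood {β : Type} (φ : β → Bool) (t : Alg n β) :
    ∀ᶠ x in residual (Fin 3 × Fin n → ℝ), QGood φ t x := by
  induction t with
  | leaf b =>
    exact Eventually.of_forall fun x =>
      ⟨trivial, fun u _ => Eventually.of_forall fun ε => ⟨rfl, le_rfl, le_rfl⟩⟩
  | free f hf next ih =>
    filter_upwards [shallow_residual hf, eventually_countable_forall.2 ih] with x h1 h2
    refine ⟨(h2 (f (pot x))).nz, fun u hu => ?_⟩
    filter_upwards [(h2 (f (pot x))).good u hu, (tendsto_line (pot x) u).eventually h1]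
      with ε h4 h5
    unfold Alg.run Alg.cmps Alg.tests
    rw [h5]
    exact h4
  | cmp i k o o' next ih =>
    filter_upwards [eventually_countable_forall.2 ih] with x h2
    refine ⟨fun s => (h2 s).nz, fun u hu => ?_⟩
    filter_upwards [(h2 (SignType.sign (pathLen u i k o - pathLen u i k o'))).good u hu,
      self_mem_nhdsWithin] with ε h4 h5
    have h6 := sign_line (h5 : 0 < ε) x u i k o o'
    unfold Alg.run Alg.cmps Alg.tests red QTree.run QTree.vis QTree.lins
    rw [h6, List.length_append]
    have h7 := parts_length i k o o'
    refine ⟨h4.1, (Nat.add_le_add h7 h4.2.1).trans (le_of_eq ?_), h4.2.2⟩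
    ring
  | smooth f hf next ih =>
    filter_upwards [hf, eventually_countable_forall.2 ih] with x h1 h2
    by_cases h0 : f (pot x) = 0
    · have h3 : fderiv ℝ f (pot x) ≠ 0 := by
        rcases h1.2 with h | h
        · exact absurd h0 h
        · exact h
      have e1 : red φ (.smooth f hf next) x =
          .lin (fun e => fderiv ℝ f (pot x) fun j => if e = j then 1 else 0)
            fun s => red φ (next s) x := by
        show (if f (pot x) = 0 then _ else _) = _
        rw [if_pos h0]
      refine ⟨?_, fun u hu => ?_⟩
      · rw [e1]
        refine ⟨fun h => h3 ?_, fun s => (h2 s).nz⟩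
        ext u
        rw [← fderiv_sum]
        have h4 : ∀ e, (fderiv ℝ f (pot x) fun j => if e = j then 1 else 0) = 0 :=
          fun e => congrFun h e
        simp only [h4, zero_mul, Finset.sum_const_zero]
        rfl
      · rw [e1] at hu
        unfold QTree.Gen at hu
        rw [fderiv_sum] at hu
        filter_upwards [(h2 (SignType.sign (fderiv ℝ f (pot x) u))).good u hu.2,
          sign_diff h1.1 h0 hu.1] with ε h4 h5
        rw [e1]
        unfold Alg.run Alg.cmps Alg.tests QTree.run QTree.vis QTree.lins
        rw [fderiv_sum, h5]
        exact ⟨h4.1, h4.2.1, Nat.add_le_add_right h4.2.2 1⟩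
    · have e1 : red φ (.smooth f hf next) x = red φ (next (SignType.sign (f (pot x)))) x := by
        show (if f (pot x) = 0 then _ else _) = _
        rw [if_neg h0]
      have h7 : ∀ᶠ w in 𝓝 (pot x), SignType.sign (f w) = SignType.sign (f (pot x)) := by
        have hc := h1.1.continuousAt
        rcases lt_or_gt_of_ne h0 with h | h
        · filter_upwards [hc.eventually (gt_mem_nhds h)] with w hw
          rw [sign_neg hw, sign_neg h]
        · filter_upwards [hc.eventually (lt_mem_nhds h)] with w hw
          rw [sign_pos hw, sign_pos h]
      refine ⟨by rw [e1]; exact (h2 _).nz, fun u hu => ?_⟩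
      rw [e1] at hu
      filter_upwards [(h2 _).good u hu, (tendsto_line (pot x) u).eventually h7] with ε h4 h5
      rw [e1]
      unfold Alg.run Alg.cmps Alg.tests
      rw [h5]
      exact ⟨h4.1, h4.2.1, h4.2.2.trans (Nat.le_succ _)⟩

end Pool.Agent.N575.PCT
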