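import Mathlib
import Pool.Agent.N575.LDT.LTree2
import Pool.Agent.N575.LDT.Alg
import Pool.Agent.N575.PCT.Model

/-!
# Removal of the path comparisons
-/

set_option autoImplicit false

namespace Pool.Agent.N575.PCT

open Filter Topology Finset MeasureTheory ProbabilityTheory
open scoped RealInnerProductSpace
open Pool.Agent.N575.LDT (Edge Tri Wts pot Shallow LTree HW run_leaf run_node path_leaf path_node
  inner_eq dir spn map_inner)

variable {n : ℕ}

/-- the scale of an edge -/
def scl (e : Edge n) : ℝ :=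
  if e.1 = 0 then 8 ^ (e.2.2 : ℕ) else if e.1 = 1 then 8 ^ (e.2.1 : ℕ) else 1

theorem scl_pos (e : Edge n) : 0 < scl e := by
  unfold scl
  split_ifs <;> positivity

/-- the weights for a vector -/
def scale (u : HW n) : Wts n := fun e => scl e * u e

/-- the rank of a path between two vertices in the order of the lengths -/
def rk (o : Option (Fin n)) : ℤ := match o with
  | none => -1
  | some j => (j : ℕ)

/-- the expected result of a comparison -/
noncomputable def ordS (o o' : Option (Fin n)) : SignType := SignType.sign (rk o - rk o')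

/-- all comparisons have the expected results -/
def Std (w : Wts n) : Prop := ∀ i k o o',
  SignType.sign (pathLen w i k o - pathLen w i k o') = ordS o o'

/-- all comparisons not concerning `τ` have the expected results -/
def StdOff (τ : Tri n) (w : Wts n) : Prop := ∀ i k o o', τ ∉ parts i k o o' →
  SignType.sign (pathLen w i k o - pathLen w i k o') = ordS o o'

/-- the form in the scaled coordinates -/
noncomputable def frm (L : Edge n → ℝ) : HW n := WithLp.toLp 2 fun e => L e * scl e

theorem inner_frm (L : Edge n → ℝ) (u : HW n) : ⟪frm L, u⟫ = ∑ e, L e * scale u e := by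
  rw [inner_eq]
  unfold frm scale
  exact sum_congr rfl fun e _ => mul_assoc _ _ _

theorem frm_ne {L : Edge n → ℝ} (h : L ≠ 0) : frm L ≠ 0 := by
  intro h1
  apply h
  funext e
  have h2 : (frm L) e = 0 := by rw [h1]; rfl
  have h3 : L e * scl e = 0 := h2
  rcases mul_eq_zero.1 h3 with h4 | h4
  · exact h4
  · exact absurd h4 (scl_pos e).ne'

/-- Comparisons are not made, their outcome is assumed to be as expected. At most `m` linear
tests are made. The tree accepts if the original tree accepts and `τ` has not been asked for. -/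
noncomputable def strip (τ : Tri n) : QTree n → ℕ → Bool → LTree (HW n)
  | .leaf b, _, c => .leaf (b && c)
  | .cmp i k o o' next, m, c => strip τ (next (ordS o o')) m (c && !decide (τ ∈ parts i k o o'))
  | .lin _ _, 0, _ => .leaf false
  | .lin L next, m + 1, c => .node (frm L) fun s => strip τ (next s) m c

theorem strip_length (τ : Tri n) (r : QTree n) (m : ℕ) (c : Bool) (u : HW n) :
    ((strip τ r m c).path u).length ≤ m := by
  induction r generalizing m c with
  | leaf b =>
    unfold strip
    rw [path_leaf]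
    exact Nat.zero_le _
  | cmp i k o o' next ih =>
    unfold strip
    exact ih _ _ _
  | lin L next ih =>
    cases m with
    | zero =>
      unfold strip
      rw [path_leaf]
      exact Nat.zero_le _
    | succ m =>
      unfold strip
      rw [path_node, List.length_cons]
      exact Nat.succ_le_succ (ih _ _ _)

theorem strip_indep (τ τ' : Tri n) (r : QTree n) (m : ℕ) (c c' : Bool) (u : HW n) :
    (strip τ r m c).path u = (strip τ' r m c').path u := by
  induction r generalizing m c c' with
  | leaf b =>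
    unfold strip
    rw [path_leaf, path_leaf]
  | cmp i k o o' next ih =>
    unfold strip
    exact ih _ _ _ _
  | lin L next ih =>
    cases m with
    | zero =>
      unfold strip
      rfl
    | succ m =>
      unfold strip
      rw [path_node, path_node]
      exact congrArg _ (ih _ _ _ _)

theorem strip_sound (τ : Tri n) (r : QTree n) (m : ℕ) (c : Bool) (u : HW n)
    (hu : StdOff τ (scale u)) (h : (strip τ r m c).run u = true) :
    r.run (scale u) = true ∧ c = true := by
  induction r generalizing m c with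
  | leaf b =>
    unfold strip at h
    rw [run_leaf, Bool.and_eq_true] at h
    exact ⟨h.1, h.2⟩
  | cmp i k o o' next ih =>
    unfold strip at h
    obtain ⟨h1, h2⟩ := ih (ordS o o') _ _ h
    rw [Bool.and_eq_true, Bool.not_eq_true', decide_eq_false_iff_not] at h2
    unfold QTree.run
    rw [hu i k o o' h2.2]
    exact ⟨h1, h2.1⟩
  | lin L next ih =>
    cases m with
    | zero =>
      unfold strip at h
      rw [run_leaf] at h
      exact absurd h (by simp)
    | succ m =>
      unfold strip at h
      rw [run_node, inner_frm] at h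
      exact ih _ _ _ h

theorem strip_complete (τ : Tri n) (r : QTree n) (m : ℕ) (u : HW n)
    (hu : Std (scale u)) (h : r.run (scale u) = true)
    (hτ : τ ∉ r.vis (scale u)) (hm : r.lins (scale u) ≤ m) :
    (strip τ r m true).run u = true := by
  induction r generalizing m with
  | leaf b =>
    unfold strip
    rw [run_leaf, Bool.and_true]
    exact h
  | cmp i k o o' next ih =>
    unfold QTree.run at h
    unfold QTree.vis at hτ
    unfold QTree.lins at hm
    rw [hu i k o o'] at h hτ hm
    rw [List.mem_append, not_or] at hτ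
    unfold strip
    have h1 : (true && !decide (τ ∈ parts i k o o')) = true := by
      simp [hτ.1]
    rw [h1]
    exact ih _ m h hτ.2 hm
  | lin L next ih =>
    unfold QTree.run at h
    unfold QTree.vis at hτ
    unfold QTree.lins at hm
    cases m with
    | zero => exact absurd hm (by omega)
    | succ m =>
      unfold strip
      rw [run_node, inner_frm]
      exact ih _ m h hτ (Nat.le_of_succ_le_succ hm)

/-! ### genericity -/

theorem ae_ne {v : HW n} (hv : v ≠ 0) (c : ℝ) : ∀ᵐ g ∂(stdGaussian (HW n)), ⟪v, g⟫ ≠ c := by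
  have h1 : (stdGaussian (HW n)).map (fun g => ⟪v, g⟫) {c} = 0 := by
    rw [map_inner]
    have hv' : (‖v‖₊ ^ 2 : NNReal) ≠ 0 := by
      have : ‖v‖₊ ≠ 0 := by simpa using hv
      positivity
    have := nullSingletonClass_gaussianReal (μ := 0) hv'
    exact measure_singleton c
  rw [Measure.map_apply (by fun_prop) (measurableSet_singleton c)] at h1
  rw [ae_iff]
  simp only [ne_eq, not_not]
  exact h1

theorem gen_ae (r : QTree n) (hr : r.NZ) (P : HW n) :
    ∀ᵐ g ∂(stdGaussian (HW n)), r.Gen (scale (P + g)) := by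
  induction r with
  | leaf b => exact Eventually.of_forall fun g => trivial
  | cmp i k o o' next ih =>
    have h1 : ∀ᵐ g ∂(stdGaussian (HW n)), ∀ s, (next s).Gen (scale (P + g)) :=
      ae_all_iff.2 fun s => ih s (hr s)
    filter_upwards [h1] with g hg
    unfold QTree.Gen
    exact hg _
  | lin L next ih =>
    have h1 : ∀ᵐ g ∂(stdGaussian (HW n)), ∀ s, (next s).Gen (scale (P + g)) :=
      ae_all_iff.2 fun s => ih s (hr.2 s)
    filter_upwards [h1, ae_ne (frm_ne hr.1) (-⟪frm L, P⟫)] with g hg h2
    unfold QTree.Gen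
    refine ⟨?_, hg _⟩
    rw [← inner_frm, inner_add_right]
    intro h3
    exact h2 (by linarith)

/-! ### the vectors of the paths -/

/-- the vector of the path `i → j → k` -/
noncomputable def ts (t : Tri n) : HW n := WithLp.toLp 2 fun e =>
  (if e = (0, t.1, t.2.1) then 1 else 0) + (if e = (1, t.2.1, t.2.2) then 1 else 0)

theorem inner_ts (t : Tri n) (w : HW n) :
    ⟪ts t, w⟫ = w (0, t.1, t.2.1) + w (1, t.2.1, t.2.2) := by
  rw [inner_eq]
  unfold ts
  simp only [add_mul, ite_mul, one_mul, zero_mul, Finset.sum_add_distrib]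
  simp

theorem ts_self (t : Tri n) : ⟪ts t, ts t⟫ = 2 := by
  rw [inner_ts]
  unfold ts
  simp
  norm_num

theorem ts_ne {s t : Tri n} (h : s ≠ t) : ⟪ts s, ts t⟫ ≤ 1 := by
  rw [inner_ts]
  unfold ts
  obtain ⟨a, b, c⟩ := s
  obtain ⟨a', b', c'⟩ := t
  by_cases h1 : a = a' <;> by_cases h2 : b = b' <;> by_cases h3 : c = c' <;>
    simp [h1, h2, h3] at h ⊢

theorem ts_nonneg (s t : Tri n) : 0 ≤ ⟪ts s, ts t⟫ := by
  rw [inner_ts]
  unfold ts
  simp only
  positivity

theorem sum_ts_sq (w : Wts n) : ∑ t : Tri n, (w (0, t.1, t.2.1) + w (1, t.2.1, t.2.2)) ^ 2 ≤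
    2 * n * ∑ e, w e ^ 2 := by
  have h1 : ∑ t : Tri n, (w (0, t.1, t.2.1) + w (1, t.2.1, t.2.2)) ^ 2 ≤
      ∑ t : Tri n, 2 * (w (0, t.1, t.2.1) ^ 2 + w (1, t.2.1, t.2.2) ^ 2) := by
    refine sum_le_sum fun t _ => ?_
    nlinarith [sq_nonneg (w (0, t.1, t.2.1) - w (1, t.2.1, t.2.2))]
  refine h1.trans ?_
  rw [← mul_sum, sum_add_distrib]
  have e0 : ∑ t : Tri n, w (0, t.1, t.2.1) ^ 2 = n * ∑ p : Fin n × Fin n, w (0, p) ^ 2 := by
    rw [Fintype.sum_prod_type, Fintype.sum_prod_type, mul_sum]
    refine sum_congr rfl fun i _ => ?_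
    rw [Fintype.sum_prod_type, mul_sum]
    refine sum_congr rfl fun j _ => ?_
    show ∑ _y : Fin n, w (0, i, j) ^ 2 = n * w (0, i, j) ^ 2
    rw [sum_const, card_univ, Fintype.card_fin, nsmul_eq_mul]
  have e1 : ∑ t : Tri n, w (1, t.2.1, t.2.2) ^ 2 = n * ∑ p : Fin n × Fin n, w (1, p) ^ 2 := by
    rw [Fintype.sum_prod_type]
    show ∑ _y : Fin n, ∑ p : Fin n × Fin n, w (1, p.1, p.2) ^ 2 = _
    rw [sum_const, card_univ, Fintype.card_fin, nsmul_eq_mul]
  rw [e0, e1]
  have e3 : ∑ e, w e ^ 2 = ∑ p : Fin n × Fin n, w (0, p) ^ 2 + ∑ p : Fin n × Fin n, w (1, p) ^ 2 +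
      ∑ p : Fin n × Fin n, w (2, p) ^ 2 := by
    rw [Fintype.sum_prod_type, Fin.sum_univ_three]
  rw [e3]
  have h2 : 0 ≤ ∑ p : Fin n × Fin n, w (2, p) ^ 2 := sum_nonneg fun p _ => sq_nonneg _
  have h3 : 0 ≤ (n : ℝ) * ∑ p : Fin n × Fin n, w (2, p) ^ 2 := by positivity
  nlinarith

theorem sum_proj (K : Submodule ℝ (HW n)) :
    ∑ t : Tri n, ‖K.orthogonalProjectionOnto (ts t)‖ ^ 2 ≤ 2 * n * Module.finrank ℝ K := by
  have b := stdOrthonormalBasis ℝ K
  have h1 : ∀ t : Tri n, ‖K.orthogonalProjectionOnto (ts t)‖ ^ 2 =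
      ∑ i, ((b i : HW n) (0, t.1, t.2.1) + (b i : HW n) (1, t.2.1, t.2.2)) ^ 2 := by
    intro t
    rw [← b.sum_sq_norm_inner_right (K.orthogonalProjectionOnto (ts t))]
    refine sum_congr rfl fun i _ => ?_
    rw [← inner_ts, Submodule.inner_orthogonalProjectionOnto_eq_of_mem_left, Real.norm_eq_abs,
      sq_abs, real_inner_comm]
  rw [sum_congr rfl fun t _ => h1 t, sum_comm]
  have h2 : ∀ i, ∑ t : Tri n, ((b i : HW n) (0, t.1, t.2.1) +
      (b i : HW n) (1, t.2.1, t.2.2)) ^ 2 ≤ 2 * n := by
    intro i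
    refine (sum_ts_sq fun e => (b i : HW n) e).trans (le_of_eq ?_)
    have h3 : ∑ e, (b i : HW n) e ^ 2 = 1 := by
      have h4 : ‖(b i : HW n)‖ = 1 := b.orthonormal.1 i
      have h5 := EuclideanSpace.norm_sq_eq (b i : HW n)
      rw [h4] at h5
      simp only [Real.norm_eq_abs, sq_abs] at h5
      rw [← h5]
      norm_num
    rw [h3, mul_one]
  refine (sum_le_sum fun i _ => h2 i).trans ?_
  rw [sum_const, card_univ, Fintype.card_fin, nsmul_eq_mul]
  exact le_of_eq (by ring)

/-- the sum of the squares of the projections to the span of a path -/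
theorem sum_dir (ls : List (HW n)) (c : ℝ) :
    ∑ τ : Tri n, ‖dir (c • ts τ) ls‖ ^ 2 ≤ c ^ 2 * (2 * n * ls.length) := by
  classical
  have h1 : ∀ τ : Tri n, ‖dir (c • ts τ) ls‖ ^ 2 =
      c ^ 2 * ‖(spn ls).orthogonalProjectionOnto (ts τ)‖ ^ 2 := by
    intro τ
    unfold dir
    rw [map_smul, norm_smul, mul_pow, Real.norm_eq_abs, sq_abs]
    rfl
  rw [sum_congr rfl fun τ _ => h1 τ, ← mul_sum]
  refine mul_le_mul_of_nonneg_left ((sum_proj (spn ls)).trans ?_) (sq_nonneg c)
  have hdim : Module.finrank ℝ (spn ls) ≤ ls.length := by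
    unfold spn
    have e : {x : HW n | x ∈ ls} = ((ls.toFinset : Finset (HW n)) : Set (HW n)) := by
      ext x
      simp
    rw [e]
    exact (finrank_span_finset_le_card _).trans (List.toFinset_card_le _)
  have : (Module.finrank ℝ (spn ls) : ℝ) ≤ ls.length := by exact_mod_cast hdim
  exact mul_le_mul_of_nonneg_left this (by positivity)

end Pool.Agent.N575.PCT
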