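import Mathlib
import Pool.Agent.N575.PCT.Red
import Pool.Agent.N575.LDT.Asm

/-!
# The lower bound for random trees with errors on both sides
-/

set_option autoImplicit false

namespace Pool.Agent.N575.PCT

open Filter Topology Finset MeasureTheory ProbabilityTheory
open scoped RealInnerProductSpace
open Pool.Agent.N575.LDT (Edge Tri Wts pot Shallow LTree HW run_leaf run_node path_leaf path_node
  inner_eq dir spn map_inner acc acc_nonneg acc_le card_tri int_acc pr tail main_ineq norm_dir_le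
  measurable_tree)

variable {n : ℕ}

theorem yes_point {ι : Type} [Fintype ι] {p : ι → ℝ} (hp : ∀ i, 0 ≤ p i) (R : ι → QTree n)
    {T q : ℝ} {m : ℕ} (hm : 9 * q ≤ m + 1) (u : HW n) (hpos : Std (scale u))
    (hy : 2 / 3 ≤ ∑ i, p i * acc ((R i).run (scale u)))
    (hT : ∑ i, p i * ((R i).vis (scale u)).length ≤ T)
    (hq : ∑ i, p i * (R i).lins (scale u) ≤ q) :
    5 / 9 * (n : ℝ) ^ 3 - T ≤ ∑ τ : Tri n, ∑ i, p i * acc ((strip τ (R i) m true).run u) := by
  classical
  have hm0 : (0 : ℝ) < m + 1 := by positivity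
  have hpt : ∀ (τ : Tri n) (i : ι), acc ((R i).run (scale u)) -
      (if τ ∈ (R i).vis (scale u) then (1 : ℝ) else 0) -
      (R i).lins (scale u) / (m + 1 : ℝ) ≤ acc ((strip τ (R i) m true).run u) := by
    intro τ i
    have hl0 : (0 : ℝ) ≤ (R i).lins (scale u) / (m + 1 : ℝ) := by positivity
    by_cases h1 : (R i).run (scale u) = true
    · by_cases h2 : τ ∈ (R i).vis (scale u)
      · rw [if_pos h2]
        linarith [acc_le ((R i).run (scale u)), acc_nonneg ((strip τ (R i) m true).run u)]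
      · by_cases h3 : (R i).lins (scale u) ≤ m
        · rw [strip_complete τ (R i) m u hpos h1 h2 h3, if_neg h2]
          have : acc true = 1 := by unfold acc; rw [if_pos rfl]
          rw [this]
          linarith [acc_le ((R i).run (scale u))]
        · push Not at h3
          have h4 : (1 : ℝ) ≤ (R i).lins (scale u) / (m + 1 : ℝ) := by
            rw [le_div_iff₀ hm0, one_mul]
            exact_mod_cast h3
          have h5 : (0 : ℝ) ≤ (if τ ∈ (R i).vis (scale u) then (1 : ℝ) else 0) := by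
            rw [if_neg h2]
          linarith [acc_le ((R i).run (scale u)), acc_nonneg ((strip τ (R i) m true).run u)]
    · have h6 : acc ((R i).run (scale u)) = 0 := by
        unfold acc
        rw [if_neg h1]
      have h5 : (0 : ℝ) ≤ (if τ ∈ (R i).vis (scale u) then (1 : ℝ) else 0) := by
        split_ifs
        · exact zero_le_one
        · exact le_rfl
      linarith [acc_nonneg ((strip τ (R i) m true).run u)]
  have hsum : ∑ τ : Tri n, ∑ i, p i * (acc ((R i).run (scale u)) -
      (if τ ∈ (R i).vis (scale u) then (1 : ℝ) else 0) -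
      (R i).lins (scale u) / (m + 1 : ℝ)) ≤
      ∑ τ : Tri n, ∑ i, p i * acc ((strip τ (R i) m true).run u) :=
    sum_le_sum fun τ _ => sum_le_sum fun i _ => mul_le_mul_of_nonneg_left (hpt τ i) (hp i)
  refine le_trans ?_ hsum
  simp only [mul_sub, sum_sub_distrib]
  have e1 : ∑ _τ : Tri n, ∑ i, p i * acc ((R i).run (scale u)) =
      (n : ℝ) ^ 3 * ∑ i, p i * acc ((R i).run (scale u)) := by
    rw [sum_const, nsmul_eq_mul, card_tri]
  have e2 : ∑ _τ : Tri n, ∑ i, p i * ((R i).lins (scale u) / (m + 1 : ℝ)) =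
      (n : ℝ) ^ 3 * ((∑ i, p i * (R i).lins (scale u)) / (m + 1)) := by
    rw [sum_const, nsmul_eq_mul, card_tri, sum_div]
    congr 1
    exact sum_congr rfl fun i _ => by ring
  have e3 : ∑ τ : Tri n, ∑ i, p i * (if τ ∈ (R i).vis (scale u) then (1 : ℝ) else 0) ≤ T := by
    rw [sum_comm]
    refine le_trans (sum_le_sum fun i _ => ?_) hT
    rw [← mul_sum]
    refine mul_le_mul_of_nonneg_left ?_ (hp i)
    have h : (univ.filter fun τ => τ ∈ (R i).vis (scale u)).card ≤
        ((R i).vis (scale u)).length :=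
      (card_le_card fun τ h => List.mem_toFinset.2 (mem_filter.1 h).2).trans
        (List.toFinset_card_le _)
    rw [sum_boole]
    exact_mod_cast h
  have h7 : (∑ i, p i * (R i).lins (scale u)) / (m + 1 : ℝ) ≤ 1 / 9 := by
    rw [div_le_iff₀ hm0]
    linarith
  rw [e1, e2]
  have hn0 : (0 : ℝ) ≤ (n : ℝ) ^ 3 := by positivity
  have h8 := mul_le_mul_of_nonneg_left h7 hn0
  have h9 := mul_le_mul_of_nonneg_left hy hn0
  linarith

theorem no_point {ι : Type} [Fintype ι] {p : ι → ℝ} (hp : ∀ i, 0 ≤ p i) (R : ι → QTree n)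
    (m : ℕ) (τ : Tri n) (u : HW n) (hpos : StdOff τ (scale u))
    (hn : ∑ i, p i * acc ((R i).run (scale u)) ≤ 1 / 3) :
    ∑ i, p i * acc ((strip τ (R i) m true).run u) ≤ 1 / 3 := by
  refine le_trans (sum_le_sum fun i _ => mul_le_mul_of_nonneg_left ?_ (hp i)) hn
  by_cases h : (strip τ (R i) m true).run u = true
  · rw [h, (strip_sound τ (R i) m true u hpos h).1]
  · have : acc ((strip τ (R i) m true).run u) = 0 := by
      unfold acc
      rw [if_neg h]
    rw [this]
    exact acc_nonneg _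

/-! ### the noise -/

/-- the set of noises which are small for all paths -/
def small (n : ℕ) (b : ℝ) : Set (HW n) :=
  {g | (∀ s : Tri n, |⟪ts s, g⟫| < 2 * b) ∧ ∀ p : Fin n × Fin n, |g (2, p)| < 2 * b}

theorem small_meas (n : ℕ) (b : ℝ) : MeasurableSet (small n b) := by
  have e : small n b = (⋂ s : Tri n, {g : HW n | |⟪ts s, g⟫| < 2 * b}) ∩
      ⋂ p : Fin n × Fin n, {g : HW n | |g (2, p)| < 2 * b} := by
    ext g
    simp [small]
  rw [e]
  refine (MeasurableSet.iInter fun s => measurableSet_lt ?_ measurable_const).inter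
    (MeasurableSet.iInter fun s => measurableSet_lt ?_ measurable_const)
  · fun_prop
  · fun_prop

theorem norm_ts (s : Tri n) : ‖ts s‖ ^ 2 = 2 := by
  rw [← real_inner_self_eq_norm_sq, ts_self]

theorem tail2 (v : HW n) {a : ℝ} (ha : 0 ≤ a) (hv : 0 < ‖v‖) :
    (stdGaussian (HW n)).real {g | a ≤ |⟪v, g⟫|} ≤ 2 * Real.exp (-(a ^ 2 / (2 * ‖v‖ ^ 2))) := by
  have h1 := tail v ha hv
  have h2 := tail (-v) ha (by rwa [norm_neg])
  rw [norm_neg] at h2
  have hsub : {g : HW n | a ≤ |⟪v, g⟫|} ⊆ {g | a ≤ ⟪v, g⟫} ∪ {g | a ≤ ⟪-v, g⟫} := by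
    intro g hg
    rw [Set.mem_union, Set.mem_ofPred_eq, Set.mem_ofPred_eq, inner_neg_left]
    exact le_abs.1 hg
  have h3 := (measureReal_mono hsub (measure_ne_top (stdGaussian (HW n)) _)).trans
    (measureReal_union_le _ _)
  linarith

theorem small_compl (hn : 1 ≤ n) :
    (stdGaussian (HW n)).real (small n √(3 * Real.log n + 5))ᶜ ≤ 1 / 70 := by
  obtain ⟨b, hb⟩ : ∃ b, b = √(3 * Real.log n + 5) := ⟨_, rfl⟩
  have hlog : 0 ≤ Real.log n := Real.log_natCast_nonneg n
  have hb0 : 0 ≤ b := by rw [hb]; exact Real.sqrt_nonneg _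
  have hb2 : b ^ 2 = 3 * Real.log n + 5 := by rw [hb, Real.sq_sqrt (by positivity)]
  rw [← hb]
  have hn0 : (0 : ℝ) < n := by exact_mod_cast hn
  have hn1 : (1 : ℝ) ≤ n := by exact_mod_cast hn
  obtain ⟨t, ht⟩ : ∃ t, t = Real.exp (-5) := ⟨_, rfl⟩
  have ht0 : 0 < t := by rw [ht]; exact Real.exp_pos _
  have ht1 : t ≤ 1 / 143 := by
    have h1 := Real.exp_one_gt_d9
    have h2 : (143 : ℝ) ≤ Real.exp 5 := by
      have : Real.exp 5 = Real.exp 1 ^ 5 := by
        rw [← Real.exp_nat_mul]
        norm_num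
      rw [this]
      calc (143 : ℝ) ≤ (2.7 : ℝ) ^ 5 := by norm_num
        _ ≤ Real.exp 1 ^ 5 := pow_le_pow_left₀ (by norm_num) (by linarith) 5
    rw [ht, Real.exp_neg, ← one_div]
    exact one_div_le_one_div_of_le (by norm_num) h2
  have hexp : Real.exp (-(b ^ 2)) = t / (n : ℝ) ^ 3 := by
    rw [hb2, ht]
    have : -(3 * Real.log n + 5) = -5 - 3 * Real.log n := by ring
    rw [this, Real.exp_sub]
    congr 1
    rw [mul_comm, Real.exp_mul, Real.exp_log hn0]
    norm_num
  have h1 : ∀ s : Tri n, (stdGaussian (HW n)).real {g | 2 * b ≤ |⟪ts s, g⟫|} ≤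
      2 * (t / (n : ℝ) ^ 3) := by
    intro s
    have hv0 : 0 < ‖ts s‖ := by
      rcases (norm_nonneg (ts s)).eq_or_lt with h | h
      · have := norm_ts s
        rw [← h] at this
        norm_num at this
      · exact h
    refine (tail2 (ts s) (by positivity) hv0).trans (le_of_eq ?_)
    rw [norm_ts, ← hexp]
    congr 2
    ring
  have h2 : ∀ p : Fin n × Fin n, (stdGaussian (HW n)).real {g | 2 * b ≤ |g (2, p)|} ≤
      2 * (t / (n : ℝ) ^ 3) ^ 2 := by
    intro p
    have hv : ‖(EuclideanSpace.single (2, p) (1 : ℝ) : HW n)‖ = 1 := by simp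
    have h3 := tail2 (EuclideanSpace.single (2, p) (1 : ℝ) : HW n) (a := 2 * b) (by positivity)
      (by rw [hv]; exact one_pos)
    rw [hv] at h3
    have e : ∀ g : HW n, ⟪(EuclideanSpace.single (2, p) (1 : ℝ) : HW n), g⟫ = g (2, p) := by
      intro g
      rw [inner_eq]
      simp [Pi.single_apply]
    simp only [e] at h3
    refine h3.trans (le_of_eq ?_)
    rw [← hexp, ← Real.exp_nat_mul]
    congr 2
    push_cast
    ring
  have hsub : (small n b)ᶜ ⊆ (⋃ s ∈ (univ : Finset (Tri n)), {g : HW n | 2 * b ≤ |⟪ts s, g⟫|}) ∪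
      ⋃ p ∈ (univ : Finset (Fin n × Fin n)), {g : HW n | 2 * b ≤ |g (2, p)|} := by
    intro g hg
    rw [Set.mem_compl_iff, small, Set.mem_ofPred_eq, not_and_or, not_forall, not_forall] at hg
    rw [Set.mem_union, Set.mem_iUnion₂, Set.mem_iUnion₂]
    rcases hg with ⟨s, hs⟩ | ⟨p, hp⟩
    · exact Or.inl ⟨s, mem_univ _, not_lt.1 hs⟩
    · exact Or.inr ⟨p, mem_univ _, not_lt.1 hp⟩
  refine (measureReal_mono hsub (measure_ne_top _ _)).trans ?_
  refine (measureReal_union_le _ _).trans ?_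
  have h3 : (stdGaussian (HW n)).real (⋃ s ∈ (univ : Finset (Tri n)),
      {g : HW n | 2 * b ≤ |⟪ts s, g⟫|}) ≤ 2 * t := by
    refine (measureReal_biUnion_finset_le _ _).trans ?_
    refine (sum_le_sum fun s _ => h1 s).trans (le_of_eq ?_)
    rw [sum_const, nsmul_eq_mul, card_tri]
    field_simp
  have h4 : (stdGaussian (HW n)).real (⋃ p ∈ (univ : Finset (Fin n × Fin n)),
      {g : HW n | 2 * b ≤ |g (2, p)|}) ≤ 2 * t ^ 2 := by
    refine (measureReal_biUnion_finset_le _ _).trans ?_
    refine (sum_le_sum fun s _ => h2 s).trans ?_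
    rw [sum_const, nsmul_eq_mul, card_univ, Fintype.card_prod, Fintype.card_fin]
    push_cast
    have h5 : (n : ℝ) * n * (2 * (t / (n : ℝ) ^ 3) ^ 2) = 2 * t ^ 2 * (1 / (n : ℝ) ^ 4) := by
      field_simp
    rw [h5]
    have h6 : 1 / (n : ℝ) ^ 4 ≤ 1 := by
      rw [div_le_one (by positivity)]
      exact one_le_pow₀ hn1
    calc 2 * t ^ 2 * (1 / (n : ℝ) ^ 4) ≤ 2 * t ^ 2 * 1 :=
          mul_le_mul_of_nonneg_left h6 (by positivity)
      _ = 2 * t ^ 2 := by ring
  nlinarith

/-- the base point -/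
noncomputable def base (n : ℕ) (b : ℝ) : HW n := WithLp.toLp 2 fun e => if e.1 = 2 then 0 else 8 * b

theorem len_some (u : HW n) (i k j : Fin n) :
    pathLen (scale u) i k (some j) = 8 ^ (j : ℕ) * ⟪ts (i, j, k), u⟫ := by
  rw [inner_ts]
  simp only [pathLen, scale, scl]
  rw [if_pos trivial, if_neg (by decide), if_pos trivial]
  ring

theorem len_none (u : HW n) (i k : Fin n) : pathLen (scale u) i k none = -u (2, i, k) := by
  simp only [pathLen, scale, scl]
  rw [if_neg (by decide), if_neg (by decide)]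
  ring

/-- the order of the lengths -/
theorem order_pair {b : ℝ} (hb : 0 < b) (u : HW n) (i k : Fin n) (h0 : |u (2, i, k)| < 2 * b)
    (o o' : Option (Fin n)) (hz : ∀ t ∈ parts i k o o', 4 * b < ⟪ts t, u⟫ ∧ ⟪ts t, u⟫ < 18 * b) :
    SignType.sign (pathLen (scale u) i k o - pathLen (scale u) i k o') = ordS o o' := by
  have hlt : ∀ j : Fin n, 4 * b < ⟪ts (i, j, k), u⟫ →
      pathLen (scale u) i k none < pathLen (scale u) i k (some j) := by
    intro j hj
    rw [len_some, len_none]
    have h1 : (1 : ℝ) ≤ 8 ^ (j : ℕ) := one_le_pow₀ (by norm_num)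
    have h2 := (abs_lt.1 h0).1
    nlinarith
  have hlt2 : ∀ j j' : Fin n, j < j' → 4 * b < ⟪ts (i, j', k), u⟫ → ⟪ts (i, j, k), u⟫ < 18 * b →
      pathLen (scale u) i k (some j) < pathLen (scale u) i k (some j') := by
    intro j j' hjj h1 h2
    rw [len_some, len_some]
    have h3 : (8 : ℝ) ^ (j : ℕ) * 8 ≤ 8 ^ (j' : ℕ) := by
      rw [← pow_succ]
      exact pow_le_pow_right₀ (by norm_num) hjj
    have h4 : (0 : ℝ) < 8 ^ (j : ℕ) := by positivity
    nlinarith
  have hz' : ∀ j, (o = some j ∨ o' = some j) → 4 * b < ⟪ts (i, j, k), u⟫ ∧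
      ⟪ts (i, j, k), u⟫ < 18 * b := by
    intro j hj
    refine hz _ ?_
    unfold parts
    rw [List.mem_map]
    refine ⟨j, ?_, rfl⟩
    rw [List.mem_append]
    rcases hj with h | h
    · left; rw [h]; simp
    · right; rw [h]; simp
  unfold ordS
  cases o with
  | none =>
    cases o' with
    | none => simp
    | some j =>
      rw [sign_neg (sub_neg.2 (hlt j (hz' j (Or.inr rfl)).1)), sign_neg]
      unfold rk
      have : (0 : ℤ) ≤ ((j : ℕ) : ℤ) := Int.natCast_nonneg _
      simp only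
      linarith
  | some j =>
    cases o' with
    | none =>
      rw [sign_pos (sub_pos.2 (hlt j (hz' j (Or.inl rfl)).1)), sign_pos]
      unfold rk
      have : (0 : ℤ) ≤ ((j : ℕ) : ℤ) := Int.natCast_nonneg _
      simp only
      linarith
    | some j' =>
      rcases lt_trichotomy j j' with h | h | h
      · rw [sign_neg (sub_neg.2 (hlt2 j j' h (hz' j' (Or.inr rfl)).1 (hz' j (Or.inl rfl)).2)),
          sign_neg]
        unfold rk
        simp only
        have h' : ((j : ℕ) : ℤ) < ((j' : ℕ) : ℤ) := by exact_mod_cast h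
        linarith
      · rw [h, sub_self, sub_self]
        simp
      · rw [sign_pos (sub_pos.2 (hlt2 j' j h (hz' j (Or.inl rfl)).1 (hz' j' (Or.inr rfl)).2)),
          sign_pos]
        unfold rk
        simp only
        have h' : ((j' : ℕ) : ℤ) < ((j : ℕ) : ℤ) := by exact_mod_cast h
        linarith

theorem ts_base (b : ℝ) (g : HW n) (s : Tri n) : ⟪ts s, base n b + g⟫ = 16 * b + ⟪ts s, g⟫ := by
  rw [inner_add_right, inner_ts s (base n b)]
  unfold base
  simp only
  rw [if_neg (by decide), if_neg (by decide)]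
  ring

theorem two_base (b : ℝ) (g : HW n) (p : Fin n × Fin n) : (base n b + g) (2, p) = g (2, p) := by
  unfold base
  simp

theorem ts_shift (b : ℝ) (g : HW n) (τ s : Tri n) :
    ⟪ts s, base n b - (10 * b) • ts τ + g⟫ = 16 * b - 10 * b * ⟪ts s, ts τ⟫ + ⟪ts s, g⟫ := by
  rw [inner_add_right, inner_sub_right, inner_smul_right, inner_ts s (base n b)]
  unfold base
  simp only
  rw [if_neg (by decide), if_neg (by decide)]
  ring

theorem two_shift (b : ℝ) (g : HW n) (τ : Tri n) (p : Fin n × Fin n) :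
    (base n b - (10 * b) • ts τ + g) (2, p) = g (2, p) := by
  unfold base ts
  simp

end Pool.Agent.N575.PCT
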