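import Mathlib
import Pool.Agent.N575.PCT.Asm

/-!
# The lower bound for the reduced trees
-/

set_option autoImplicit false

namespace Pool.Agent.N575.PCT

open Filter Topology Finset MeasureTheory ProbabilityTheory
open scoped RealInnerProductSpace
open Pool.Agent.N575.LDT (Edge Tri Wts pot Shallow LTree HW run_leaf run_node path_leaf path_node
  inner_eq dir spn map_inner acc acc_nonneg acc_le card_tri int_acc pr tail main_ineq norm_dir_le
  measurable_tree)

variable {n : ℕ}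

/-- all edges from `i` to `k` are strictly shorter than the other paths, except for the triangles
in `S` -/
def Short (S : Set (Tri n)) (w : Wts n) : Prop :=
  ∀ s : Tri n, s ∉ S → pathLen w s.1 s.2.2 none < pathLen w s.1 s.2.2 (some s.2.1)

theorem core {ι : Type} [Fintype ι] {p : ι → ℝ} (hp : ∀ i, 0 ≤ p i) (hp1 : ∑ i, p i = 1)
    (R : ι → QTree n) (hNZ : ∀ i, (R i).NZ) (hn1 : 1 ≤ n) {T q : ℝ}
    (hy : ∀ u : Wts n, (∀ i, (R i).Gen u) → Short ∅ u → 2 / 3 ≤ ∑ i, p i * acc ((R i).run u) ∧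
      ∑ i, p i * ((R i).vis u).length ≤ T ∧ ∑ i, p i * (R i).lins u ≤ q)
    (hn : ∀ (u : Wts n) (τ : Tri n), (∀ i, (R i).Gen u) →
      pathLen u τ.1 τ.2.2 (some τ.2.1) < pathLen u τ.1 τ.2.2 none → Short {τ} u →
      ∑ i, p i * acc ((R i).run u) ≤ 1 / 3) :
    (n : ℝ) ^ 3 ≤ 5 * T + 213 * n ^ 2 * √(q * (3 * Real.log n + 5)) := by
  obtain ⟨ℓ, hℓ⟩ : ∃ ℓ, ℓ = 3 * Real.log n + 5 := ⟨_, rfl⟩
  have hlog : 0 ≤ Real.log n := Real.log_natCast_nonneg n
  have hℓ0 : 0 < ℓ := by rw [hℓ]; positivity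
  obtain ⟨b, hb⟩ : ∃ b, b = √ℓ := ⟨_, rfl⟩
  have hb0 : 0 < b := by rw [hb]; exact Real.sqrt_pos.2 hℓ0
  have hb2 : b ^ 2 = ℓ := by rw [hb, Real.sq_sqrt hℓ0.le]
  have hδ := small_compl hn1
  rw [← hℓ, ← hb] at hδ
  obtain ⟨N, hN⟩ : ∃ N, N = small n b := ⟨_, rfl⟩
  have hNm : MeasurableSet N := by rw [hN]; exact small_meas n b
  rw [← hN] at hδ
  obtain ⟨μ, hμ⟩ : ∃ μ, μ = stdGaussian (HW n) := ⟨_, rfl⟩
  have : IsProbabilityMeasure μ := by rw [hμ]; infer_instance
  rw [← hμ] at hδ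
  have hN1 : μ.real N = 1 - μ.real Nᶜ := by
    have := probReal_add_probReal_compl (μ := μ) hNm
    linarith
  obtain ⟨P, hP⟩ : ∃ P : HW n, P = base n b := ⟨_, rfl⟩
  -- genericity
  have hgen : ∀ᵐ g ∂μ, ∀ i, (R i).Gen (scale (P + g)) := by
    rw [hμ]
    exact ae_all_iff.2 fun i => gen_ae (R i) (hNZ i) P
  have hgen2 : ∀ᵐ g ∂μ, ∀ (τ : Tri n) (i : ι),
      (R i).Gen (scale (P - (10 * b) • ts τ + g)) := by
    rw [hμ]
    exact ae_all_iff.2 fun τ => ae_all_iff.2 fun i => gen_ae (R i) (hNZ i) _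
  -- the base weights
  have hbase : ∀ g ∈ N, (∀ t : Tri n, 4 * b < ⟪ts t, P + g⟫ ∧ ⟪ts t, P + g⟫ < 18 * b) ∧
      ∀ p : Fin n × Fin n, |(P + g) (2, p)| < 2 * b := by
    intro g hg
    rw [hN] at hg
    refine ⟨fun t => ?_, fun p => ?_⟩
    · have := abs_lt.1 (hg.1 t)
      rw [hP, ts_base]
      constructor <;> linarith [this.1, this.2]
    · rw [hP, two_base]
      exact hg.2 p
  have hstd : ∀ g ∈ N, Std (scale (P + g)) := by
    intro g hg i k o o'
    exact order_pair hb0 _ i k ((hbase g hg).2 (i, k)) o o' fun t _ => (hbase g hg).1 t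
  have hshort : ∀ g ∈ N, Short ∅ (scale (P + g)) := by
    intro g hg s _
    have h1 := (hbase g hg).1 s
    have h2 := abs_lt.1 ((hbase g hg).2 (s.1, s.2.2))
    rw [len_some, len_none]
    have h3 : (1 : ℝ) ≤ 8 ^ (s.2.1 : ℕ) := one_le_pow₀ (by norm_num)
    have h4 : ⟪ts (s.1, s.2.1, s.2.2), P + g⟫ = ⟪ts s, P + g⟫ := rfl
    rw [h4]
    nlinarith [h1.1, h2.1]
  -- nonnegativity of the bounds
  obtain ⟨g₀, hg₀N, hg₀⟩ : ∃ g, g ∈ N ∧ ∀ i, (R i).Gen (scale (P + g)) := by
    by_contra! hc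
    have h1 : μ N ≤ 0 := by
      rw [← ae_iff.1 hgen]
      refine measure_mono fun g hg => ?_
      obtain ⟨i, hi⟩ := hc g hg
      exact fun h => hi (h i)
    have h2 : μ.real N = 0 := by
      unfold Measure.real
      rw [le_antisymm h1 zero_le', ENNReal.toReal_zero]
    rw [h2] at hN1
    linarith
  have hthird := hy _ hg₀ (hshort g₀ hg₀N)
  have hT0 : 0 ≤ T := le_trans (sum_nonneg fun i _ => mul_nonneg (hp i) (Nat.cast_nonneg _)) hthird.2.1
  have hq0 : 0 ≤ q := le_trans (sum_nonneg fun i _ => mul_nonneg (hp i) (Nat.cast_nonneg _)) hthird.2.2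
  obtain ⟨m, hm⟩ : ∃ m : ℕ, m = ⌊9 * q⌋₊ := ⟨_, rfl⟩
  have hm1 : 9 * q ≤ m + 1 := by rw [hm]; exact (Nat.lt_floor_add_one _).le
  have hm2 : (m : ℝ) ≤ 9 * q := by rw [hm]; exact Nat.floor_le (by positivity)
  obtain ⟨r, hr⟩ : ∃ r : Tri n → ι → LTree (HW n), r = fun τ i => strip τ (R i) m true := ⟨_, rfl⟩
  have hFi : ∀ τ i (x : HW n), Integrable (fun g => p i * acc ((r τ i).run (x + g))) μ := by
    intro τ i x
    rw [hμ]
    exact (int_acc (r τ i) x).1.const_mul _
  have hF : ∫ g, (∑ τ : Tri n, ∑ i, p i * acc ((r τ i).run (P + g))) ∂μ =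
      ∑ τ : Tri n, ∑ i, p i * pr (r τ i) P := by
    rw [integral_finsetSum _ fun τ _ => integrable_finsetSum _ fun i _ => hFi τ i P]
    refine sum_congr rfl fun τ _ => ?_
    rw [integral_finsetSum _ fun i _ => hFi τ i P]
    refine sum_congr rfl fun i _ => ?_
    rw [integral_const_mul, hμ, (int_acc (r τ i) P).2]
  have hG : ∫ g, (∑ τ : Tri n, ∑ i, p i * acc ((r τ i).run (P - (10 * b) • ts τ + g))) ∂μ =
      ∑ τ : Tri n, ∑ i, p i * pr (r τ i) (P - (10 * b) • ts τ) := by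
    rw [integral_finsetSum _ fun τ _ => integrable_finsetSum _ fun i _ =>
      hFi τ i (P - (10 * b) • ts τ)]
    refine sum_congr rfl fun τ _ => ?_
    rw [integral_finsetSum _ fun i _ => hFi τ i (P - (10 * b) • ts τ)]
    refine sum_congr rfl fun i _ => ?_
    rw [integral_const_mul, hμ, (int_acc (r τ i) (P - (10 * b) • ts τ)).2]
  have hFI : Integrable (fun g => ∑ τ : Tri n, ∑ i, p i * acc ((r τ i).run (P + g))) μ :=
    integrable_finsetSum _ fun τ _ => integrable_finsetSum _ fun i _ => hFi τ i P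
  have hGI : Integrable (fun g => ∑ τ : Tri n, ∑ i, p i *
      acc ((r τ i).run (P - (10 * b) • ts τ + g))) μ :=
    integrable_finsetSum _ fun τ _ => integrable_finsetSum _ fun i _ =>
      hFi τ i (P - (10 * b) • ts τ)
  -- lower bound for `F`
  have h1 : (5 / 9 * (n : ℝ) ^ 3 - T) * μ.real N ≤
      ∫ g, (∑ τ : Tri n, ∑ i, p i * acc ((r τ i).run (P + g))) ∂μ := by
    have h2 : ∫ _g in N, (5 / 9 * (n : ℝ) ^ 3 - T) ∂μ ≤
        ∫ g in N, (∑ τ : Tri n, ∑ i, p i * acc ((r τ i).run (P + g))) ∂μ := by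
      refine setIntegral_mono_on_ae (integrable_const _).integrableOn hFI.integrableOn hNm ?_
      filter_upwards [hgen] with g hg1 hg
      have h3 := hy _ hg1 (hshort g hg)
      have h4 := yes_point hp R (T := T) (q := q) hm1 (P + g) (hstd g hg) h3.1 h3.2.1 h3.2.2
      rw [hr]
      exact h4
    rw [setIntegral_const, smul_eq_mul, mul_comm] at h2
    refine h2.trans ?_
    refine setIntegral_le_integral hFI (Eventually.of_forall fun g => ?_)
    exact sum_nonneg fun τ _ => sum_nonneg fun i _ => mul_nonneg (hp i) (acc_nonneg _)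
  -- upper bound for `G`
  have h2 : ∫ g, (∑ τ : Tri n, ∑ i, p i * acc ((r τ i).run (P - (10 * b) • ts τ + g))) ∂μ ≤
      1 / 3 * (n : ℝ) ^ 3 + (n : ℝ) ^ 3 * μ.real Nᶜ := by
    have h3 : ∀ᵐ g ∂μ, (∑ τ : Tri n, ∑ i, p i * acc ((r τ i).run (P - (10 * b) • ts τ + g))) ≤
        1 / 3 * (n : ℝ) ^ 3 + Nᶜ.indicator (fun _ => (n : ℝ) ^ 3) g := by
      filter_upwards [hgen2] with g hg2
      by_cases hg : g ∈ N
      · rw [Set.indicator_of_notMem (Set.notMem_compl_iff.2 hg), add_zero]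
        rw [hN] at hg
        have h4 : ∀ τ : Tri n, ∑ i, p i * acc ((r τ i).run (P - (10 * b) • ts τ + g)) ≤ 1 / 3 := by
          intro τ
          have h2b : ∀ p : Fin n × Fin n, |(P - (10 * b) • ts τ + g) (2, p)| < 2 * b := by
            intro p
            rw [hP, two_shift]
            exact hg.2 p
          have hoff : ∀ s : Tri n, s ≠ τ → 4 * b < ⟪ts s, P - (10 * b) • ts τ + g⟫ ∧
              ⟪ts s, P - (10 * b) • ts τ + g⟫ < 18 * b := by
            intro s hs
            rw [hP, ts_shift]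
            have h7 := abs_lt.1 (hg.1 s)
            have h8 := mul_le_mul_of_nonneg_left (ts_ne hs) (by positivity : 0 ≤ 10 * b)
            have h9 := mul_nonneg (by positivity : 0 ≤ 10 * b) (ts_nonneg s τ)
            constructor <;> linarith [h7.1, h7.2]
          have hsd : StdOff τ (scale (P - (10 * b) • ts τ + g)) := by
            intro i k o o' hτ
            refine order_pair hb0 _ i k (h2b (i, k)) o o' fun t ht => hoff t ?_
            rintro rfl
            exact hτ ht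
          rw [hr]
          refine no_point hp R m τ _ hsd (hn _ τ (hg2 τ) ?_ ?_)
          · rw [len_some, len_none]
            have h5 : ⟪ts (τ.1, τ.2.1, τ.2.2), P - (10 * b) • ts τ + g⟫ < -(2 * b) := by
              have e : ⟪ts (τ.1, τ.2.1, τ.2.2), P - (10 * b) • ts τ + g⟫ =
                ⟪ts τ, P - (10 * b) • ts τ + g⟫ := rfl
              rw [e, hP, ts_shift, ts_self]
              have := (abs_lt.1 (hg.1 τ)).2
              linarith
            have h6 := abs_lt.1 (h2b (τ.1, τ.2.2))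
            have h7 : (1 : ℝ) ≤ 8 ^ (τ.2.1 : ℕ) := one_le_pow₀ (by norm_num)
            nlinarith [h6.1, h6.2]
          · intro s hs
            have h1 := hoff s hs
            have h2 := abs_lt.1 (h2b (s.1, s.2.2))
            rw [len_some, len_none]
            have h3 : (1 : ℝ) ≤ 8 ^ (s.2.1 : ℕ) := one_le_pow₀ (by norm_num)
            have h4 : ⟪ts (s.1, s.2.1, s.2.2), P - (10 * b) • ts τ + g⟫ =
              ⟪ts s, P - (10 * b) • ts τ + g⟫ := rfl
            rw [h4]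
            nlinarith [h1.1, h2.1]
        refine (sum_le_sum fun τ _ => h4 τ).trans (le_of_eq ?_)
        rw [sum_const, nsmul_eq_mul, card_tri]
        ring
      · rw [Set.indicator_of_mem hg]
        have h4 : ∀ τ : Tri n, ∑ i, p i * acc ((r τ i).run (P - (10 * b) • ts τ + g)) ≤ 1 := by
          intro τ
          rw [← hp1]
          refine sum_le_sum fun i _ => ?_
          calc p i * acc ((r τ i).run (P - (10 * b) • ts τ + g)) ≤ p i * 1 :=
                mul_le_mul_of_nonneg_left (acc_le _) (hp i)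
            _ = p i := mul_one _
        have h5 : (∑ τ : Tri n, ∑ i, p i * acc ((r τ i).run (P - (10 * b) • ts τ + g))) ≤
            (n : ℝ) ^ 3 := by
          refine (sum_le_sum fun τ _ => h4 τ).trans (le_of_eq ?_)
          rw [sum_const, nsmul_eq_mul, card_tri]
          ring
        have h6 : (0 : ℝ) ≤ 1 / 3 * (n : ℝ) ^ 3 := by positivity
        linarith
    have hi : Integrable (fun g => 1 / 3 * (n : ℝ) ^ 3 + Nᶜ.indicator (fun _ => (n : ℝ) ^ 3) g) μ :=
      (integrable_const _).add ((integrable_const _).indicator hNm.compl)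
    refine (integral_mono_ae hGI hi h3).trans (le_of_eq ?_)
    rw [integral_add (integrable_const _) ((integrable_const _).indicator hNm.compl),
      integral_indicator hNm.compl, setIntegral_const, integral_const]
    simp [mul_comm]
  -- the main inequality
  have h3 : ∑ τ : Tri n, ∑ i, p i * pr (r τ i) P ≤
      ∑ τ : Tri n, ∑ i, p i * pr (r τ i) (P - (10 * b) • ts τ) +
        ∑ τ : Tri n, ∑ i, p i *
          √(∫ g, ‖dir ((10 * b) • ts τ) ((r τ i).path (P + g))‖ ^ 2 ∂(stdGaussian (HW n))) := by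
    rw [← sum_add_distrib]
    refine sum_le_sum fun τ _ => ?_
    rw [← sum_add_distrib]
    refine sum_le_sum fun i _ => ?_
    rw [← mul_add]
    exact mul_le_mul_of_nonneg_left (main_ineq (r τ i) P ((10 * b) • ts τ)) (hp i)
  -- the bound for the projections
  have h4 : ∀ i, ∑ τ : Tri n,
      √(∫ g, ‖dir ((10 * b) • ts τ) ((r τ i).path (P + g))‖ ^ 2 ∂(stdGaussian (HW n))) ≤
        (n : ℝ) ^ 2 * √(1800 * (q * ℓ)) := by
    intro i
    obtain ⟨D, hD⟩ : ∃ D : Tri n → ℝ, D = fun τ =>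
      ∫ g, ‖dir ((10 * b) • ts τ) ((r τ i).path (P + g))‖ ^ 2 ∂(stdGaussian (HW n)) := ⟨_, rfl⟩
    have hD0 : ∀ τ, 0 ≤ D τ := fun τ => by
      rw [hD]; exact integral_nonneg fun g => sq_nonneg _
    have hDs : ∑ τ, D τ ≤ (10 * b) ^ 2 * (2 * n * m) := by
      rw [hD]
      dsimp only
      have hi : ∀ τ : Tri n, Integrable
          (fun g => ‖dir ((10 * b) • ts τ) ((r τ i).path (P + g))‖ ^ 2) (stdGaussian (HW n)) := by
        intro τ
        have hF : Measurable fun g : HW n => dir ((10 * b) • ts τ) ((r τ i).path (P + g)) :=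
          (measurable_tree (r τ i) fun _ l => dir ((10 * b) • ts τ) l).comp (measurable_const_add P)
        refine (integrable_const (‖(10 * b) • ts τ‖ ^ 2)).mono'
          ((hF.norm.pow_const 2).aestronglyMeasurable) ?_
        refine Filter.Eventually.of_forall fun g => ?_
        rw [Real.norm_eq_abs, abs_of_nonneg (sq_nonneg _)]
        exact pow_le_pow_left₀ (norm_nonneg _) (norm_dir_le _ _) 2
      rw [← integral_finsetSum _ fun τ _ => hi τ]
      have hb' : ∀ g : HW n, ∑ τ : Tri n, ‖dir ((10 * b) • ts τ) ((r τ i).path (P + g))‖ ^ 2 ≤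
          (10 * b) ^ 2 * (2 * n * m) := by
        intro g
        have hn0 : 0 < n := hn1
        obtain ⟨τ₀⟩ : Nonempty (Tri n) := ⟨(⟨0, hn0⟩, ⟨0, hn0⟩, ⟨0, hn0⟩)⟩
        have e : ∀ τ : Tri n, (r τ i).path (P + g) = (r τ₀ i).path (P + g) := by
          intro τ
          rw [hr]
          exact strip_indep τ τ₀ (R i) m true true (P + g)
        rw [sum_congr rfl fun τ _ => by rw [e τ]]
        refine (sum_dir _ _).trans ?_
        refine mul_le_mul_of_nonneg_left ?_ (sq_nonneg _)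
        have : (((r τ₀ i).path (P + g)).length : ℝ) ≤ m := by
          rw [hr]
          exact_mod_cast strip_length τ₀ (R i) m true (P + g)
        exact mul_le_mul_of_nonneg_left this (by positivity)
      calc ∫ g, ∑ τ : Tri n, ‖dir ((10 * b) • ts τ) ((r τ i).path (P + g))‖ ^ 2
            ∂(stdGaussian (HW n))
          ≤ ∫ _g, (10 * b) ^ 2 * (2 * n * m) ∂(stdGaussian (HW n)) :=
            integral_mono (integrable_finsetSum _ fun τ _ => hi τ) (integrable_const _) hb'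
        _ = (10 * b) ^ 2 * (2 * n * m) := by rw [integral_const]; simp
    have h5 : (∑ τ, √(D τ)) ^ 2 ≤ ((n : ℝ) ^ 2 * √(1800 * (q * ℓ))) ^ 2 := by
      have h6 : (∑ τ, √(D τ)) ^ 2 ≤ (univ : Finset (Tri n)).card * ∑ τ, √(D τ) ^ 2 :=
        sq_sum_le_card_mul_sum_sq
      rw [card_tri, sum_congr rfl fun τ _ => Real.sq_sqrt (hD0 τ)] at h6
      refine h6.trans ?_
      rw [mul_pow, Real.sq_sqrt (by positivity)]
      have h7 : (n : ℝ) ^ 3 * ∑ τ, D τ ≤ (n : ℝ) ^ 3 * ((10 * b) ^ 2 * (2 * n * m)) :=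
        mul_le_mul_of_nonneg_left hDs (by positivity)
      refine h7.trans ?_
      rw [mul_pow, hb2]
      have h8 : (n : ℝ) ^ 4 * (200 * ℓ) * m ≤ (n : ℝ) ^ 4 * (200 * ℓ) * (9 * q) :=
        mul_le_mul_of_nonneg_left hm2 (by positivity)
      nlinarith
    have h6 := abs_le_of_sq_le_sq h5 (by positivity)
    rw [hD] at h6
    exact (abs_le.1 h6).2
  have h5 : ∑ τ : Tri n, ∑ i, p i *
      √(∫ g, ‖dir ((10 * b) • ts τ) ((r τ i).path (P + g))‖ ^ 2 ∂(stdGaussian (HW n))) ≤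
        (n : ℝ) ^ 2 * √(1800 * (q * ℓ)) := by
    rw [sum_comm]
    calc ∑ i, ∑ τ : Tri n, p i *
        √(∫ g, ‖dir ((10 * b) • ts τ) ((r τ i).path (P + g))‖ ^ 2 ∂(stdGaussian (HW n)))
        ≤ ∑ i, p i * ((n : ℝ) ^ 2 * √(1800 * (q * ℓ))) := by
          refine sum_le_sum fun i _ => ?_
          rw [← mul_sum]
          exact mul_le_mul_of_nonneg_left (h4 i) (hp i)
      _ = (n : ℝ) ^ 2 * √(1800 * (q * ℓ)) := by rw [← sum_mul, hp1, one_mul]
  rw [hF] at h1
  rw [hG] at h2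
  have h6 : 5 * √(1800 * (q * ℓ)) ≤ 213 * √(q * ℓ) := by
    have h7 : √(1800 * (q * ℓ)) ≤ (213 / 5) * √(q * ℓ) := by
      rw [Real.sqrt_le_left (by positivity), mul_pow, Real.sq_sqrt (by positivity)]
      have : 0 ≤ q * ℓ := by positivity
      linarith
    linarith
  rw [← hℓ]
  have hn3 : (0 : ℝ) ≤ (n : ℝ) ^ 3 := by positivity
  have h7 : (5 / 9 * (n : ℝ) ^ 3 - T) * μ.real N ≤ 1 / 3 * (n : ℝ) ^ 3 +
      (n : ℝ) ^ 3 * μ.real Nᶜ + (n : ℝ) ^ 2 * √(1800 * (q * ℓ)) := by linarith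
  rw [hN1] at h7
  have h8 : (n : ℝ) ^ 3 * μ.real Nᶜ ≤ (n : ℝ) ^ 3 * (1 / 70) := mul_le_mul_of_nonneg_left hδ hn3
  have h9 : 0 ≤ T * μ.real Nᶜ := mul_nonneg hT0 measureReal_nonneg
  have h10 := mul_le_mul_of_nonneg_left h6 (by positivity : (0 : ℝ) ≤ (n : ℝ) ^ 2)
  nlinarith

end Pool.Agent.N575.PCT
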