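import Mathlib
import Pool.Agent.N575.PCT.Core
import Pool.Agent.N575.LDT.Main

/-!
# Randomised decision trees for shortest paths in graphs with three layers
-/

set_option autoImplicit false

namespace Pool.Agent.N575.PCT

open Filter Topology Finset
open Pool.Agent.N575.LDT (Edge Tri Wts pot Shallow acc pot_continuous tendsto_line dense_ne)

variable {n : ℕ}

/-- The weights of a directed graph with three layers of `n` vertices: `A i j` is the length of the
edge from the vertex `i` of the first to the vertex `j` of the second layer, `B j k` is the length of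
the edge from `j` to the vertex `k` of the third layer, and `C i k` is the length of the edge from
`i` to `k`, which is written with the sign `-`. -/
def lengths (A B C : Fin n → Fin n → ℝ) : Wts n := fun e =>
  if e.1 = 0 then A e.2.1 e.2.2 else if e.1 = 1 then B e.2.1 e.2.2 else -C e.2.1 e.2.2

/-- all lengths are close to `1`, `1` and `2` -/
def Near (δ : ℝ) (A B C : Fin n → Fin n → ℝ) : Prop :=
  ∀ i j, |A i j - 1| < δ ∧ |B i j - 1| < δ ∧ |C i j - 2| < δ

theorem hc (w : Wts n) : w = lengths (fun i j => w (0, i, j)) (fun j k => w (1, j, k))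
    (fun i k => -w (2, i, k)) := by
  funext e
  obtain ⟨c, i, j⟩ := e
  unfold lengths
  fin_cases c <;> simp

/-- the lower bound -/
theorem final {ι β : Type} [Fintype ι] {p : ι → ℝ} (hp : ∀ i, 0 ≤ p i) (hp1 : ∑ i, p i = 1)
    (φ : β → Bool) (t : ι → Alg n β) (hn1 : 1 ≤ n) {δ T q : ℝ} (hδ : 0 < δ)
    (hy : ∀ A B C : Fin n → Fin n → ℝ, Near δ A B C → (∀ i j k, C i k < A i j + B j k) →
      2 / 3 ≤ ∑ i, p i * acc (φ ((t i).run (lengths A B C))) ∧
      ∑ i, p i * (t i).cmps (lengths A B C) ≤ T ∧ ∑ i, p i * (t i).tests (lengths A B C) ≤ q)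
    (hn : ∀ A B C : Fin n → Fin n → ℝ, Near δ A B C →
      ∀ i j k, A i j + B j k < C i k →
        (∀ i' j' k', (i', j', k') ≠ (i, j, k) → C i' k' < A i' j' + B j' k') →
        ∑ i, p i * acc (φ ((t i).run (lengths A B C))) ≤ 1 / 3) :
    (n : ℝ) ^ 3 ≤ 10 * T + 213 * n ^ 2 * √(q * (3 * Real.log n + 5)) := by
  classical
  -- the centre
  obtain ⟨xs, hxs⟩ : ∃ xs : Fin 3 × Fin n → ℝ,
      xs = fun v => if v.1 = 0 then 2 else if v.1 = 1 then 1 else 0 := ⟨_, rfl⟩
  have hpot : pot xs = (lengths (fun _ _ => 1) (fun _ _ => 1) (fun _ _ => 2) : Wts n) := by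
    funext e
    obtain ⟨c, i, j⟩ := e
    rw [hxs]
    unfold pot lengths
    fin_cases c <;> simp <;> norm_num
  have hopen : ∀ᶠ x in 𝓝 xs, ∀ᶠ w in 𝓝 (pot x : Wts n), Near δ (fun i j => w (0, i, j))
      (fun j k => w (1, j, k)) (fun i k => -w (2, i, k)) := by
    have h1 : ∀ᶠ w in 𝓝 (pot xs : Wts n), Near δ (fun i j => w (0, i, j))
        (fun j k => w (1, j, k)) (fun i k => -w (2, i, k)) := by
      unfold Near
      refine eventually_all.2 fun i => eventually_all.2 fun j => ?_
      have h2 : ∀ (F : Wts n → ℝ), Continuous F → F (pot xs) = 0 →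
          ∀ᶠ w in 𝓝 (pot xs : Wts n), |F w| < δ := by
        intro F hF h0
        have h3 : |F (pot xs)| < δ := by rw [h0, abs_zero]; exact hδ
        exact (hF.abs.continuousAt).eventually (gt_mem_nhds h3)
      refine (h2 (fun w => w (0, i, j) - 1) (by fun_prop) ?_).and
        ((h2 (fun w => w (1, i, j) - 1) (by fun_prop) ?_).and
          (h2 (fun w => -w (2, i, j) - 2) (by fun_prop) ?_))
      · rw [hpot]; simp [lengths]
      · rw [hpot]; simp [lengths]
      · rw [hpot]; simp [lengths]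
    exact pot_continuous.continuousAt.eventually (eventually_eventually_nhds.2 h1)
  obtain ⟨U, hU, hUo, hUx⟩ := eventually_nhds_iff.1 hopen
  obtain ⟨x, hxU, hx⟩ : ∃ x, x ∈ U ∧ ∀ i, QGood φ (t i) x := by
    have hd : Dense {x | ∀ i, QGood φ (t i) x} :=
      dense_of_mem_residual (eventually_countable_forall.2 fun i => qgood φ (t i))
    obtain ⟨x, h1, h2⟩ := hd.inter_open_nonempty U hUo ⟨xs, hUx⟩
    exact ⟨x, h1, h2⟩
  have hnear := hU x hxU
  have hev : ∀ u : Wts n, (∀ i, (red φ (t i) x).Gen u) → ∃ ε : ℝ, 0 < ε ∧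
      Near δ (fun i j => (pot x + ε • u) (0, i, j))
      (fun j k => (pot x + ε • u) (1, j, k)) (fun i k => -(pot x + ε • u) (2, i, k)) ∧
      ∀ i, φ ((t i).run (pot x + ε • u)) = (red φ (t i) x).run u ∧
        ((red φ (t i) x).vis u).length ≤ 2 * (t i).cmps (pot x + ε • u) ∧
        (red φ (t i) x).lins u ≤ (t i).tests (pot x + ε • u) := by
    intro u hu
    have h1 : ∀ᶠ ε in 𝓝[>] (0 : ℝ), ∀ i, φ ((t i).run (pot x + ε • u)) =
        (red φ (t i) x).run u ∧
        ((red φ (t i) x).vis u).length ≤ 2 * (t i).cmps (pot x + ε • u) ∧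
        (red φ (t i) x).lins u ≤ (t i).tests (pot x + ε • u) :=
      eventually_all.2 fun i => (hx i).good u (hu i)
    obtain ⟨ε, ⟨h2, h3⟩, h4⟩ :=
      ((h1.and ((tendsto_line (pot x) u).eventually hnear)).and self_mem_nhdsWithin).exists
    exact ⟨ε, h4, h3, h2⟩
  have hlen : ∀ (ε : ℝ) (u : Wts n) (i k j : Fin n), 0 < ε →
      (-(pot x + ε • u) (2, i, k) < (pot x + ε • u) (0, i, j) + (pot x + ε • u) (1, j, k) ↔
        pathLen u i k none < pathLen u i k (some j)) := by
    intro ε u i k j hε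
    have h1 := pathLen_line x ε u i k none
    have h2 := pathLen_line x ε u i k (some j)
    rw [show pathLen (pot x + ε • u) i k none = -(pot x + ε • u) (2, i, k) from rfl] at h1
    rw [show pathLen (pot x + ε • u) i k (some j) =
      (pot x + ε • u) (0, i, j) + (pot x + ε • u) (1, j, k) from rfl] at h2
    rw [h1, h2, add_lt_add_iff_left, mul_lt_mul_iff_right₀ hε]
  have hlen' : ∀ (ε : ℝ) (u : Wts n) (i k j : Fin n), 0 < ε →
      ((pot x + ε • u) (0, i, j) + (pot x + ε • u) (1, j, k) < -(pot x + ε • u) (2, i, k) ↔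
        pathLen u i k (some j) < pathLen u i k none) := by
    intro ε u i k j hε
    have h1 := pathLen_line x ε u i k none
    have h2 := pathLen_line x ε u i k (some j)
    rw [show pathLen (pot x + ε • u) i k none = -(pot x + ε • u) (2, i, k) from rfl] at h1
    rw [show pathLen (pot x + ε • u) i k (some j) =
      (pot x + ε • u) (0, i, j) + (pot x + ε • u) (1, j, k) from rfl] at h2
    rw [h1, h2, add_lt_add_iff_left, mul_lt_mul_iff_right₀ hε]
  have hmain := core hp hp1 (fun i => red φ (t i) x) (fun i => (hx i).nz) hn1 (T := 2 * T) (q := q)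
    (by
      intro u hgen hu
      obtain ⟨ε, hε, h1, h2⟩ := hev u hgen
      have h3 := hy _ _ _ h1 (by
        intro i j k
        exact (hlen ε u i k j hε).2 (hu (i, j, k) (Set.notMem_empty _)))
      rw [← hc] at h3
      refine ⟨h3.1.trans (le_of_eq ?_), le_trans ?_ (mul_le_mul_of_nonneg_left h3.2.1
        (by norm_num : (0 : ℝ) ≤ 2)), le_trans ?_ h3.2.2⟩
      · exact sum_congr rfl fun i _ => by rw [(h2 i).1]
      · rw [mul_sum]
        refine sum_le_sum fun i _ => ?_
        have h4 : (((red φ (t i) x).vis u).length : ℝ) ≤ 2 * (t i).cmps (pot x + ε • u) := by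
          exact_mod_cast (h2 i).2.1
        calc p i * (((red φ (t i) x).vis u).length : ℝ)
            ≤ p i * (2 * (t i).cmps (pot x + ε • u)) := mul_le_mul_of_nonneg_left h4 (hp i)
          _ = 2 * (p i * (t i).cmps (pot x + ε • u)) := by ring
      · refine sum_le_sum fun i _ => mul_le_mul_of_nonneg_left ?_ (hp i)
        exact_mod_cast (h2 i).2.2)
    (by
      intro u τ hgen hτ hu
      obtain ⟨ε, hε, h1, h2⟩ := hev u hgen
      have h3 := hn _ _ _ h1 τ.1 τ.2.1 τ.2.2 ((hlen' ε u _ _ _ hε).2 hτ) (by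
        intro i j k hne
        exact (hlen ε u i k j hε).2 (hu (i, j, k) hne))
      rw [← hc] at h3
      refine le_trans (le_of_eq ?_) h3
      exact sum_congr rfl fun i _ => by rw [(h2 i).1])
  linarith

/-! ### regular functions -/

/-- analytic functions which do not vanish of the second order at all potentials are regular -/
theorem regular_analytic {f : Wts n → ℝ} (hf : AnalyticOnNhd ℝ f Set.univ)
    (h : ∃ x, f (pot x) ≠ 0 ∨ fderiv ℝ f (pot x) ≠ 0) : Regular f := by
  have hdiff : ∀ x : Fin 3 × Fin n → ℝ, DifferentiableAt ℝ f (pot x) :=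
    fun x => (hf (pot x) (Set.mem_univ _)).differentiableAt
  have hop : ∀ g : Wts n → ℝ, AnalyticOnNhd ℝ g Set.univ → (∃ x, g (pot x) ≠ 0) →
      ∀ᶠ x in residual (Fin 3 × Fin n → ℝ), g (pot x) ≠ 0 := by
    intro g hg hx
    obtain ⟨x₀, h0⟩ := hx
    refine residual_of_dense_open ?_ (dense_ne hg h0)
    have hcont : Continuous g := by
      rw [continuous_iff_continuousAt]
      exact fun w => (hg w (Set.mem_univ _)).continuousAt
    exact isOpen_ne_fun (hcont.comp pot_continuous) continuous_const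
  obtain ⟨x₀, h0 | h0⟩ := h
  · filter_upwards [hop f hf ⟨x₀, h0⟩] with x hx
    exact ⟨hdiff x, Or.inl hx⟩
  · obtain ⟨v, hv⟩ : ∃ v, fderiv ℝ f (pot x₀) v ≠ 0 := by
      by_contra! hcon
      exact h0 (ContinuousLinearMap.ext hcon)
    have hg : AnalyticOnNhd ℝ (fun w => fderiv ℝ f w v) Set.univ := by
      intro w hw
      have h1 : AnalyticAt ℝ (fderiv ℝ f) w := (hf w hw).fderiv
      exact ((ContinuousLinearMap.apply ℝ ℝ v).analyticAt _).comp h1
    filter_upwards [hop _ hg ⟨x₀, hv⟩] with x hx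
    refine ⟨hdiff x, Or.inr fun h1 => hx ?_⟩
    rw [h1]
    rfl

end Pool.Agent.N575.PCT
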